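import Pool.Agent.H53.Lib.R_seed8.W401.Cheb.Main
import Pool.Agent.H53.Lib.R_seed8.W352.ChAbs.Main

/-!
# Frobenius elements are dense
-/

set_option autoImplicit false
set_option linter.unusedSectionVars false

namespace Pool.Agent.Q15.GR

open NumberField Filter Topology IsDedekindDomain
open Pool.Agent.W401.Cheb

theorem chebK : ChebK := Pool.Agent.W352.ChAbs.main chebotarev fun L => torsor L

variable {K : Type} [Field K] [NumberField K]

theorem isFrob_conj {v : HeightOneSpectrum (𝓞 K)} {σ : GK K} (h : IsFrob v σ) (τ : GK K) :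
    IsFrob v (τ * σ * τ⁻¹) := by
  obtain ⟨Q, hQ, hQv, hQσ⟩ := h
  let f : 𝓞 (AlgebraicClosure K) →+* 𝓞 (AlgebraicClosure K) :=
    MulSemiringAction.toRingHom (GK K) (𝓞 (AlgebraicClosure K)) τ⁻¹
  have hf : Function.Bijective f := by
    constructor
    · exact MulAction.injective τ⁻¹
    · exact MulAction.surjective τ⁻¹
  refine ⟨Q.comap f, ?_, ?_, ?_⟩
  · exact Ideal.comap_isMaximal_of_surjective f hf.2
  · rw [Ideal.comap_comap]
    have h1 : f.comp (algebraMap (𝓞 K) (𝓞 (AlgebraicClosure K))) =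
        algebraMap (𝓞 K) (𝓞 (AlgebraicClosure K)) := by
      ext x
      change (τ⁻¹ : GK K) (algebraMap K (AlgebraicClosure K) (x : K)) =
        algebraMap K (AlgebraicClosure K) (x : K)
      exact AlgEquiv.commutes _ _
    rw [h1, hQv]
  · intro x
    rw [Ideal.mem_comap, map_sub, map_pow]
    have h1 : f ((τ * σ * τ⁻¹) • x) = σ • (f x) := by
      change τ⁻¹ • ((τ * σ * τ⁻¹) • x) = σ • (τ⁻¹ • x)
      rw [smul_smul, smul_smul]
      congr 1
      group
    rw [h1]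
    exact hQσ (f x)

/-- Frobenius elements at the places outside a finite set are dense -/
theorem frob_dense (S : Set (HeightOneSpectrum (𝓞 K))) (hS : S.Finite) :
    Dense {σ : GK K | ∃ v ∉ S, IsFrob v σ} := by
  rw [dense_iff_inter_open]
  rintro O hO ⟨g, hg⟩
  have h1 : (fun x : GK K => g * x) ⁻¹' O ∈ 𝓝 (1 : GK K) := by
    apply (hO.preimage (continuous_mul_left g)).mem_nhds
    simpa using hg
  obtain ⟨W, hWO, hW, hW1⟩ := mem_nhds_iff.mp h1
  obtain ⟨U, hU⟩ := ProfiniteGrp.exist_openNormalSubgroup_sub_open_nhds_of_one hW hW1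
  have hUo : IsOpen (U.toSubgroup : Set (GK K)) := U.isOpen'
  haveI hfin : Finite (GK K ⧸ U.toSubgroup) := Subgroup.quotient_finite_of_isOpen _ hUo
  let C : Set (GK K) := {x | ∃ τ : GK K, ∃ u ∈ U.toSubgroup, τ * x * τ⁻¹ = g * u}
  have hC := chebK K U.toSubgroup hUo C (by
    rintro σ ⟨τ', u, hu, h2⟩ τ
    refine ⟨τ' * τ⁻¹, u, hu, ?_⟩
    rw [← h2]
    group) (by
    rintro σ ⟨τ, u, hu, h2⟩ w hw
    refine ⟨τ, u * (τ * w * τ⁻¹), ?_, ?_⟩
    · exact U.toSubgroup.mul_mem hu (Subgroup.Normal.conj_mem inferInstance w hw τ)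
    · rw [← mul_assoc g, ← h2]
      group)
  have hpos : (0 : ℝ) < (((QuotientGroup.mk : GK K → GK K ⧸ U.toSubgroup) '' C).ncard : ℝ) /
      (Nat.card (GK K ⧸ U.toSubgroup) : ℝ) := by
    apply div_pos
    · have h2 : 0 < ((QuotientGroup.mk : GK K → GK K ⧸ U.toSubgroup) '' C).ncard := by
        rw [Set.ncard_pos]
        exact ⟨_, g, ⟨1, 1, U.toSubgroup.one_mem, by group⟩, rfl⟩
      exact_mod_cast h2
    · exact_mod_cast Nat.card_pos
  by_contra hne
  have hsub : ∀ v, (∃ σ ∈ C, IsFrob v σ) → v ∈ S := by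
    rintro v ⟨σ, ⟨τ, u, hu, h2⟩, hσ⟩
    by_contra hv
    apply hne
    refine ⟨τ * σ * τ⁻¹, ?_, v, hv, isFrob_conj hσ τ⟩
    rw [h2]
    exact hWO (hU hu)
  have hz : Tendsto (dens fun v : HeightOneSpectrum (𝓞 K) => ∃ σ ∈ C, IsFrob v σ) atTop
      (𝓝 0) := by
    have h3 := Pool.Agent.W352.ChAbs.const_div_pi (S.ncard : ℝ)
    refine squeeze_zero (fun N => ?_) (fun N => ?_) h3
    · unfold dens
      positivity
    · unfold dens
      refine div_le_div_of_nonneg_right ?_ (Nat.cast_nonneg _)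
      have h4 : Nat.card {v : HeightOneSpectrum (𝓞 K) //
          Ideal.absNorm v.asIdeal ≤ N ∧ ∃ σ ∈ C, IsFrob v σ} ≤ S.ncard := by
        change Set.ncard {v : HeightOneSpectrum (𝓞 K) |
          Ideal.absNorm v.asIdeal ≤ N ∧ ∃ σ ∈ C, IsFrob v σ} ≤ S.ncard
        exact Set.ncard_le_ncard (fun v hv => hsub v hv.2) hS
      exact_mod_cast h4
  have := tendsto_nhds_unique hC hz
  rw [this] at hpos
  exact lt_irrefl _ hpos

end Pool.Agent.Q15.GR
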